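import Mathlib
import Pool.Agent.Helper40.Nil.Stmts2

/-! Module COMG. -/

set_option autoImplicit false

namespace Pool.Agent.Helper40.Nil

open scoped commutatorElement

universe u

theorem comg_zpow {Γ : Type u} [Group Γ] {G : Subgroup Γ} {t : Γ}
    (h : ∀ x, x ∈ G ↔ t * x * t⁻¹ ∈ G) (n : ℤ) : ∀ x, x ∈ G → t ^ n * x * (t ^ n)⁻¹ ∈ G := by
  induction n using Int.induction_on with
  | zero => intro x hx; simpa using hx
  | succ n ih =>
    intro x hx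
    have h1 := (h _).1 (ih x hx)
    have e : t * (t ^ (n : ℤ) * x * (t ^ (n : ℤ))⁻¹) * t⁻¹ =
        t ^ ((n : ℤ) + 1) * x * (t ^ ((n : ℤ) + 1))⁻¹ := by
      rw [add_comm (n : ℤ) 1, zpow_add, zpow_one]; group
    rwa [e] at h1
  | pred n ih =>
    intro x hx
    rw [h]
    have h1 := ih x hx
    have e : t * (t ^ (-(n : ℤ) - 1) * x * (t ^ (-(n : ℤ) - 1))⁻¹) * t⁻¹ =
        t ^ (-(n : ℤ)) * x * (t ^ (-(n : ℤ)))⁻¹ := by
      have : -(n : ℤ) = 1 + (-(n : ℤ) - 1) := by ring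
      conv_rhs => rw [this, zpow_add, zpow_one]
      group
    rwa [e]

theorem st_COMG : ST_COMG.{u} := by
  intro Γ _ G t g h hg
  have key : ∀ x ∈ Subgroup.closure {t, g * t * g⁻¹}, ∃ (i : ℤ) (y : Γ), y ∈ G ∧ x = t ^ i * y := by
    intro x hx
    induction hx using Subgroup.closure_induction with
    | mem x hx =>
      rcases hx with rfl | hx
      · exact ⟨1, 1, G.one_mem, by simp⟩
      · rw [Set.mem_singleton_iff] at hx
        refine ⟨1, t⁻¹ * g * t * g⁻¹, ?_, by rw [hx]; group⟩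
        have h1 := comg_zpow h (-1) g hg
        have h2 := G.mul_mem h1 (G.inv_mem hg)
        have e : t ^ (-1 : ℤ) * g * (t ^ (-1 : ℤ))⁻¹ * g⁻¹ = t⁻¹ * g * t * g⁻¹ := by group
        rwa [e] at h2
    | one => exact ⟨0, 1, G.one_mem, by simp⟩
    | mul a b _ _ ha hb =>
      obtain ⟨i, y, hy, rfl⟩ := ha
      obtain ⟨j, z, hz, rfl⟩ := hb
      refine ⟨i + j, t ^ (-j) * y * (t ^ (-j))⁻¹ * z, G.mul_mem (comg_zpow h (-j) y hy) hz, ?_⟩
      group
    | inv a _ ha =>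
      obtain ⟨i, y, hy, rfl⟩ := ha
      refine ⟨-i, t ^ i * y⁻¹ * (t ^ i)⁻¹, comg_zpow h i _ (G.inv_mem hy), ?_⟩
      group
  rw [Subgroup.commutator_le]
  intro a ha b hb
  obtain ⟨i, y, hy, rfl⟩ := key a ha
  obtain ⟨j, z, hz, rfl⟩ := key b hb
  have e : ⁅t ^ i * y, t ^ j * z⁆ = (t ^ i * y * (t ^ i)⁻¹) *
      (t ^ (i + j) * (z * y⁻¹) * (t ^ (i + j))⁻¹) * (t ^ j * z⁻¹ * (t ^ j)⁻¹) := by
    rw [commutatorElement_def, zpow_add]
    group
  rw [e]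
  exact G.mul_mem (G.mul_mem (comg_zpow h i y hy)
    (comg_zpow h (i + j) _ (G.mul_mem hz (G.inv_mem hy)))) (comg_zpow h j _ (G.inv_mem hz))

end Pool.Agent.Helper40.Nil
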