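import Mathlib
import Pool.Agent.Helper40.Nil.Stmts2
import Pool.Agent.Helper81.Lin.TITS

/-! Module RU. -/

set_option autoImplicit false

namespace Pool.Agent.Helper40.Nil

open Polynomial

theorem ru_cast {k : Type} [NormedField k] (a : ℤ) (ha : |a| ≤ 2) : ‖(a : k)‖ ≤ 2 := by
  have h2 : ‖(2 : k)‖ ≤ 2 := by
    have : (2 : k) = 1 + 1 := by norm_num
    rw [this]
    refine (norm_add_le _ _).trans ?_
    rw [norm_one]; norm_num
  have hb := abs_le.1 ha
  have h3 : a = -2 ∨ a = -1 ∨ a = 0 ∨ a = 1 ∨ a = 2 := by omega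
  rcases h3 with rfl | rfl | rfl | rfl | rfl
  · simpa using h2
  · simp
  · simp
  · simp
  · simpa using h2

theorem ru_lead {k : Type} [NormedField k] (a : ℤ) (ha : |a| ≤ 2) (h0 : a ≠ 0) :
    min 1 ‖(2 : k)‖ ≤ ‖(a : k)‖ := by
  have hb := abs_le.1 ha
  have h3 : a = -2 ∨ a = -1 ∨ a = 1 ∨ a = 2 := by omega
  rcases h3 with rfl | rfl | rfl | rfl
  · simp
  · simp
  · simp
  · simp

theorem ru_bound {k : Type} [NormedField k] (h2 : 0 < ‖(2 : k)‖) (z : k) (hz : 1 < ‖z‖)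
    (P : ℤ[X]) (hP : P ≠ 0) (hc : ∀ i, |P.coeff i| ≤ 2)
    (h : P.eval₂ (Int.castRingHom k) z = 0) : ‖z‖ ≤ 1 + 2 / min 1 ‖(2 : k)‖ := by
  set c := min 1 ‖(2 : k)‖ with hcdef
  have hc0 : 0 < c := lt_min one_pos h2
  set d := P.natDegree with hd
  rw [eval₂_eq_sum_range, Finset.sum_range_succ] at h
  have h1 : ((P.coeff d : ℤ) : k) * z ^ d =
      - ∑ i ∈ Finset.range d, ((P.coeff i : ℤ) : k) * z ^ i := by
    have := h
    simp only [eq_intCast] at this
    linear_combination this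
  have hlead : P.coeff d ≠ 0 := by
    rw [hd, coeff_natDegree]
    exact leadingCoeff_ne_zero.2 hP
  have h3 : c * ‖z‖ ^ d ≤ ∑ i ∈ Finset.range d, 2 * ‖z‖ ^ i := by
    calc c * ‖z‖ ^ d ≤ ‖((P.coeff d : ℤ) : k)‖ * ‖z‖ ^ d := by
          apply mul_le_mul_of_nonneg_right (ru_lead _ (hc d) hlead) (by positivity)
      _ = ‖((P.coeff d : ℤ) : k) * z ^ d‖ := by rw [norm_mul, norm_pow]
      _ = ‖∑ i ∈ Finset.range d, ((P.coeff i : ℤ) : k) * z ^ i‖ := by rw [h1, norm_neg]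
      _ ≤ ∑ i ∈ Finset.range d, ‖((P.coeff i : ℤ) : k) * z ^ i‖ := norm_sum_le _ _
      _ ≤ ∑ i ∈ Finset.range d, 2 * ‖z‖ ^ i := by
          apply Finset.sum_le_sum
          intro i _
          rw [norm_mul, norm_pow]
          exact mul_le_mul_of_nonneg_right (ru_cast _ (hc i)) (by positivity)
  rw [← Finset.mul_sum] at h3
  have h4 : (∑ i ∈ Finset.range d, ‖z‖ ^ i) * (‖z‖ - 1) = ‖z‖ ^ d - 1 := geom_sum_mul _ _
  have hz1 : 0 < ‖z‖ - 1 := by linarith
  have h5 : c * ‖z‖ ^ d * (‖z‖ - 1) ≤ 2 * ‖z‖ ^ d := by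
    have := mul_le_mul_of_nonneg_right h3 hz1.le
    rw [mul_assoc 2, h4] at this
    linarith
  have hzd : 0 < ‖z‖ ^ d := by positivity
  have h6 : c * (‖z‖ - 1) ≤ 2 := by
    by_contra hn
    push Not at hn
    have := mul_lt_mul_of_pos_right hn hzd
    linarith [mul_comm (c * (‖z‖ - 1)) (‖z‖ ^ d), mul_assoc c (‖z‖ ^ d) (‖z‖ - 1),
      mul_assoc c (‖z‖ - 1) (‖z‖ ^ d), mul_comm (‖z‖ ^ d) (‖z‖ - 1)]
  have h7 : ‖z‖ - 1 ≤ 2 / c := by
    rw [le_div_iff₀ hc0]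
    linarith
  linarith

theorem ru_contra {k : Type} [NormedField k] (h2 : 0 < ‖(2 : k)‖) (y : k) (hy : 1 < ‖y‖)
    (h : ∀ M : ℕ, 1 ≤ M → ∃ P : ℤ[X], P ≠ 0 ∧ (∀ i, |P.coeff i| ≤ 2) ∧
      P.eval₂ (Int.castRingHom k) (y ^ M) = 0) : False := by
  obtain ⟨n, hn⟩ := pow_unbounded_of_one_lt (1 + 2 / min 1 ‖(2 : k)‖) hy
  obtain ⟨P, hP, hc, hP0⟩ := h (n + 1) (by omega)
  have h1 : 1 < ‖y ^ (n + 1)‖ := by
    rw [norm_pow]
    exact one_lt_pow₀ hy (by omega)
  have h3 := ru_bound h2 (y ^ (n + 1)) h1 P hP hc hP0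
  rw [norm_pow] at h3
  have h4 : ‖y‖ ^ n ≤ ‖y‖ ^ (n + 1) := pow_le_pow_right₀ hy.le (by omega)
  linarith

theorem st_RU : ST_RU := by
  intro l hl h
  by_contra hk
  push Not at hk
  set F := Subfield.closure ({l} : Set ℂ) with hF
  have hlF : l ∈ F := Subfield.subset_closure (Set.mem_singleton l)
  set x : F := ⟨l, hlF⟩ with hx
  have hgen : Subfield.closure (({x} : Finset F) : Set F) = ⊤ := by
    apply SetLike.coe_injective
    apply F.subtype.injective.image_injective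
    rw [← Subfield.coe_map, ← Subfield.coe_map, RingHom.map_field_closure]
    have e1 : (F.subtype '' (({x} : Finset F) : Set F)) = {l} := by
      simp [hx]
    rw [e1]
    ext y
    simp only [SetLike.mem_coe, Subfield.mem_map, Subfield.mem_top, true_and]
    constructor
    · intro hy
      exact ⟨⟨y, hy⟩, rfl⟩
    · rintro ⟨z, rfl⟩
      exact z.2
  have hx0 : x ≠ 0 := by
    intro e
    apply hl
    exact congrArg Subtype.val e
  have hroot : ∀ n : ℕ, 1 ≤ n → x ^ n ≠ 1 := by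
    intro n hn e
    apply hk n hn
    have := congrArg Subtype.val e
    simpa using this
  obtain ⟨k, i1, i2, σ, hσ⟩ := Pool.Agent.Helper81.Lin.TITS {x} hgen x hx0 hroot
  have h2 : 0 < ‖(2 : k)‖ := by
    rw [norm_pos_iff]
    have h3 : σ 2 ≠ 0 := by
      rw [Ne, map_eq_zero]
      exact two_ne_zero
    have h4 : σ 2 = 2 := map_ofNat σ 2
    rwa [h4] at h3
  have hP : ∀ M : ℕ, 1 ≤ M → ∃ P : ℤ[X], P ≠ 0 ∧ (∀ i, |P.coeff i| ≤ 2) ∧
      P.eval₂ (Int.castRingHom k) (σ x ^ M) = 0 := by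
    intro M hM
    obtain ⟨P, hP, hc, hP0⟩ := h M hM
    refine ⟨P, hP, hc, ?_⟩
    have h3 : P.eval₂ (Int.castRingHom F) (x ^ M) = 0 := by
      apply F.subtype.injective
      rw [map_zero, hom_eval₂]
      have e1 : (F.subtype).comp (Int.castRingHom F) = Int.castRingHom ℂ := RingHom.ext_int _ _
      have e2 : F.subtype (x ^ M) = l ^ M := by simp [hx]
      rw [e1, e2]
      have := hP0
      rwa [aeval_def] at this
    have h4 := congrArg σ h3
    rw [hom_eval₂, map_zero] at h4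
    have e1 : σ.comp (Int.castRingHom F) = Int.castRingHom k := RingHom.ext_int _ _
    rwa [e1, map_pow] at h4
  rcases lt_or_gt_of_ne hσ with hlt | hgt
  · have hx1 : σ x ≠ 0 := by rwa [Ne, map_eq_zero]
    apply ru_contra h2 (σ x)⁻¹
    · rw [norm_inv]
      exact (one_lt_inv₀ (norm_pos_iff.2 hx1)).2 hlt
    · intro M hM
      obtain ⟨P, hP, hc, hP0⟩ := hP M hM
      refine ⟨P.reverse, by rwa [Ne, reverse_eq_zero], fun i => ?_, ?_⟩
      · rw [coeff_reverse]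
        exact hc _
      · have hz : σ x ^ M ≠ 0 := pow_ne_zero _ hx1
        let _ : Invertible (σ x ^ M) := invertibleOfNonzero hz
        have h5 := (eval₂_reverse_eq_zero_iff (Int.castRingHom k) (σ x ^ M) P).2 hP0
        rwa [invOf_eq_inv, ← inv_pow] at h5
  · exact ru_contra h2 (σ x) hgt hP

end Pool.Agent.Helper40.Nil
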